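import Pool.Agent.Helper61.MM.Cont

set_option autoImplicit false

/-!
# Far away a toggled state is one of the two states
-/

namespace Pool.Agent.Helper98.MM

open MeasureTheory ProbabilityTheory Filter Topology Pool.Agent.Helper60.TJ
open Pool.Agent.Helper61.MM
open scoped symmDiff

variable {lam : Measure ℝ} {κ : Kernel WT Rs} {R : Measure Om}

/-! ### measurability -/

theorem measurable_bE0 : Measurable bE0 := by
  unfold bE0
  refine Measurable.prodMk ?_ measurable_snd
  refine measurable_pi_iff.2 fun e => ?_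
  exact measurable_fst.comp ((measurable_pi_apply e).comp measurable_fst)

theorem measurable_rs : Measurable rs := by
  unfold rs
  exact measurable_pi_iff.2 fun S => measurable_pi_apply (S, (∅ : Finset Ed))

theorem measurable_spr : Measurable spr := by
  unfold spr
  refine measurable_pi_iff.2 fun e => ?_
  exact measurable_snd.comp ((measurable_pi_apply e).comp measurable_fst)

theorem measurable_vx (S : Vx → Bool) : Measurable fun T : Vx → Bool => vx T S := by
  unfold vx
  refine measurable_pi_iff.2 fun v => ?_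
  exact (measurable_of_finite fun b : Bool => xor b (S v)).comp (measurable_pi_apply v)

theorem measurable_sh {α : Type*} [MeasurableSpace α] (u : Vx) :
    Measurable (sh u : (Ed → α) → Ed → α) := by
  unfold sh
  exact measurable_pi_iff.2 fun e => measurable_pi_apply (e.1 + u, e.2)

theorem measurable_shT (u : Vx) : Measurable (shT u) := by
  unfold shT
  exact measurable_pi_iff.2 fun v => measurable_pi_apply (v + u)

theorem measurable_shB (u : Vx) : Measurable (shB u) := by
  unfold shB
  exact ((measurable_sh u).comp measurable_fst).prodMk ((measurable_shT u).comp measurable_snd)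

theorem measurable_tB (S : Finset Vx) : Measurable (tB S) := by
  unfold tB
  exact measurable_fst.prodMk ((measurable_vx _).comp measurable_snd)

/-! ### the law of the restricted volumes -/

/-- weights, frustrated plaquettes, the restricted volumes -/
def Phi (z : Om) : WT × (Rs × (Rs × Rs)) := (bE0 z.1, rs z.2.1, rs z.2.2.1, rs z.2.2.2)

theorem measurable_Phi : Measurable Phi := by
  unfold Phi
  refine (measurable_bE0.comp measurable_fst).prodMk ?_
  refine (measurable_rs.comp (measurable_fst.comp measurable_snd)).prodMk ?_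
  refine (measurable_rs.comp (measurable_fst.comp (measurable_snd.comp measurable_snd))).prodMk ?_
  exact measurable_rs.comp (measurable_snd.comp (measurable_snd.comp measurable_snd))

theorem map_Phi (hl : Wgt lam) (hR : IsR lam κ R) :
    R.map Phi = (PB lam) ⊗ₘ (κ ×ₖ (κ ×ₖ κ)) := by
  have := hl.prob
  have := hR.mark
  have := hR.prob
  have h := congrArg (Measure.map Prod.snd) hR.law
  rw [Measure.map_map measurable_snd] at h
  · rw [Measure.map_snd_prod, measure_univ, one_smul] at h
    exact h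
  · exact (measurable_spr.comp measurable_fst).prodMk measurable_Phi

theorem prob_coin : IsProbabilityMeasure coin := by
  constructor
  unfold coin
  simp only [Measure.smul_apply, Measure.add_apply, measure_univ, smul_eq_mul]
  rw [one_add_one_eq_two, ENNReal.inv_mul_cancel (by norm_num) (by norm_num)]

theorem prob_PB (hl : Wgt lam) : IsProbabilityMeasure (PB lam) := by
  have := hl.prob
  have := prob_coin
  infer_instance

/-- law of one restricted volume -/
theorem law_one (hl : Wgt lam) (hR : IsR lam κ R) (i : Fin 3) {G : Set (WT × Rs)}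
    (hG : MeasurableSet G) :
    R {z | (bE0 z.1, rs (rp z i)) ∈ G} = ∫⁻ b, κ b {r | (b, r) ∈ G} ∂(PB lam) := by
  have := hl.prob
  have := prob_PB hl
  have := hR.mark
  have := hR.prob
  have hm := map_Phi hl hR
  fin_cases i
  · have hs : MeasurableSet {x : WT × (Rs × (Rs × Rs)) | (x.1, x.2.1) ∈ G} :=
      hG.preimage (measurable_fst.prodMk (measurable_fst.comp measurable_snd))
    have h1 : R {z | (bE0 z.1, rs (rp z 0)) ∈ G} =
        R.map Phi {x | (x.1, x.2.1) ∈ G} := by
      rw [Measure.map_apply measurable_Phi hs]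
      rfl
    change R {z | (bE0 z.1, rs (rp z 0)) ∈ G} = _
    rw [h1, hm, Measure.compProd_apply hs]
    refine lintegral_congr fun b => ?_
    have h2 : (Prod.mk b ⁻¹' {x : WT × (Rs × (Rs × Rs)) | (x.1, x.2.1) ∈ G}) =
        {r | (b, r) ∈ G} ×ˢ Set.univ := by
      ext x
      simp
    rw [h2, Kernel.prod_apply_prod]
    simp
  · have hs : MeasurableSet {x : WT × (Rs × (Rs × Rs)) | (x.1, x.2.2.1) ∈ G} :=
      hG.preimage (measurable_fst.prodMk
        (measurable_fst.comp (measurable_snd.comp measurable_snd)))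
    have h1 : R {z | (bE0 z.1, rs (rp z 1)) ∈ G} =
        R.map Phi {x | (x.1, x.2.2.1) ∈ G} := by
      rw [Measure.map_apply measurable_Phi hs]
      rfl
    change R {z | (bE0 z.1, rs (rp z 1)) ∈ G} = _
    rw [h1, hm, Measure.compProd_apply hs]
    refine lintegral_congr fun b => ?_
    have h2 : (Prod.mk b ⁻¹' {x : WT × (Rs × (Rs × Rs)) | (x.1, x.2.2.1) ∈ G}) =
        Set.univ ×ˢ ({r | (b, r) ∈ G} ×ˢ Set.univ) := by
      ext x
      simp
    rw [h2, Kernel.prod_apply_prod, Kernel.prod_apply_prod]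
    simp
  · have hs : MeasurableSet {x : WT × (Rs × (Rs × Rs)) | (x.1, x.2.2.2) ∈ G} :=
      hG.preimage (measurable_fst.prodMk
        (measurable_snd.comp (measurable_snd.comp measurable_snd)))
    have h1 : R {z | (bE0 z.1, rs (rp z 2)) ∈ G} =
        R.map Phi {x | (x.1, x.2.2.2) ∈ G} := by
      rw [Measure.map_apply measurable_Phi hs]
      rfl
    change R {z | (bE0 z.1, rs (rp z 2)) ∈ G} = _
    rw [h1, hm, Measure.compProd_apply hs]
    refine lintegral_congr fun b => ?_
    have h2 : (Prod.mk b ⁻¹' {x : WT × (Rs × (Rs × Rs)) | (x.1, x.2.2.2) ∈ G}) =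
        Set.univ ×ˢ (Set.univ ×ˢ {r | (b, r) ∈ G}) := by
      ext x
      simp
    rw [h2, Kernel.prod_apply_prod, Kernel.prod_apply_prod]
    simp

/-! ### the conditional law is carried by two states -/

/-- the patterns on `F` -/
def EA (F A : Finset Ed) : Set (Ed → Bool) := {U | ∀ e ∈ F, U e = decide (e ∈ A)}

theorem measurableSet_EA (F A : Finset Ed) : MeasurableSet (EA F A) := by
  have h : EA F A = ⋂ e ∈ F, (fun U : Ed → Bool => U e) ⁻¹' {decide (e ∈ A)} := by
    ext U
    simp [EA]
  rw [h]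
  exact Finset.measurableSet_biInter F fun e _ =>
    (measurable_pi_apply e) (measurableSet_singleton _)

/-- restricted volumes with a pattern -/
def RA (F A : Finset Ed) : Set Rs := {r | (r ∅).1 ∈ EA F A}

theorem measurableSet_RA (F A : Finset Ed) : MeasurableSet (RA F A) :=
  (measurableSet_EA F A).preimage (measurable_fst.comp (measurable_pi_apply ∅))

theorem measurableSet_ne {α : Type*} [MeasurableSpace α] {f g : α → Ed → Bool}
    (hf : Measurable f) (hg : Measurable g) : MeasurableSet {x | f x ≠ g x} := by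
  have h : {x | f x ≠ g x} = (⋂ e : Ed, {x | f x e = g x e})ᶜ := by
    ext x
    rw [Set.mem_compl_iff, Set.mem_iInter]
    refine not_congr ?_
    exact funext_iff
  rw [h]
  refine (MeasurableSet.iInter fun e => ?_).compl
  exact measurableSet_eq_fun ((measurable_pi_apply e).comp hf) ((measurable_pi_apply e).comp hg)

/-- three states which are pairwise different -/
def N3 : Set (WT × (Rs × (Rs × Rs))) :=
  {x | (x.2.1 ∅).1 ≠ (x.2.2.1 ∅).1 ∧ (x.2.1 ∅).1 ≠ (x.2.2.2 ∅).1 ∧
    (x.2.2.1 ∅).1 ≠ (x.2.2.2 ∅).1}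

theorem measurableSet_N3 : MeasurableSet N3 := by
  have m0 : Measurable fun r : Rs => (r ∅).1 := measurable_fst.comp (measurable_pi_apply ∅)
  have m1 : Measurable fun x : WT × (Rs × (Rs × Rs)) => (x.2.1 ∅).1 :=
    m0.comp (measurable_fst.comp measurable_snd)
  have m2 : Measurable fun x : WT × (Rs × (Rs × Rs)) => (x.2.2.1 ∅).1 :=
    m0.comp (measurable_fst.comp (measurable_snd.comp measurable_snd))
  have m3 : Measurable fun x : WT × (Rs × (Rs × Rs)) => (x.2.2.2 ∅).1 :=
    m0.comp (measurable_snd.comp (measurable_snd.comp measurable_snd))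
  exact (measurableSet_ne m1 m2).inter ((measurableSet_ne m1 m3).inter (measurableSet_ne m2 m3))

/-- the conditional law is not carried by the two different states -/
def B2 (κ : Kernel WT Rs) : Set (WT × (Rs × (Rs × Rs))) :=
  {x | (x.2.1 ∅).1 ≠ (x.2.2.1 ∅).1 ∧
    κ x.1 {r | (x.2.1 ∅).1 ≠ (r ∅).1 ∧ (x.2.2.1 ∅).1 ≠ (r ∅).1} ≠ 0}

theorem measurableSet_B2 (κ : Kernel WT Rs) [IsMarkovKernel κ] : MeasurableSet (B2 κ) := by
  have m0 : Measurable fun r : Rs => (r ∅).1 := measurable_fst.comp (measurable_pi_apply ∅)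
  have m1 : Measurable fun x : WT × (Rs × (Rs × Rs)) => (x.2.1 ∅).1 :=
    m0.comp (measurable_fst.comp measurable_snd)
  have m2 : Measurable fun x : WT × (Rs × (Rs × Rs)) => (x.2.2.1 ∅).1 :=
    m0.comp (measurable_fst.comp (measurable_snd.comp measurable_snd))
  have hM : MeasurableSet {q : (WT × (Rs × (Rs × Rs))) × Rs |
      (q.1.2.1 ∅).1 ≠ (q.2 ∅).1 ∧ (q.1.2.2.1 ∅).1 ≠ (q.2 ∅).1} :=
    (measurableSet_ne (m1.comp measurable_fst) (m0.comp measurable_snd)).inter
      (measurableSet_ne (m2.comp measurable_fst) (m0.comp measurable_snd))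
  have h := Kernel.measurable_kernel_prodMk_left
    (κ := Kernel.comap κ (Prod.fst : WT × (Rs × (Rs × Rs)) → WT) measurable_fst) hM
  refine (measurableSet_ne m1 m2).inter ?_
  exact (h (measurableSet_singleton 0)).compl

theorem ae_two (hl : Wgt lam) (hR : IsR lam κ R)
    (h3 : R (Df 0 1 g0 ∩ Df 0 2 g0 ∩ Df 1 2 g0) = 0) :
    ∀ᵐ z ∂(R), z ∈ Df 0 1 g0 →
      κ (bE0 z.1) {r | uu (rp z 0) g0 ≠ (r ∅).1 ∧ uu (rp z 1) g0 ≠ (r ∅).1} = 0 := by
  have := hl.prob
  have := prob_PB hl
  have := hR.mark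
  have := hR.prob
  have hm := map_Phi hl hR
  have h1 : R.map Phi N3 = 0 := by
    rw [Measure.map_apply measurable_Phi measurableSet_N3]
    refine measure_mono_null ?_ h3
    intro z hz
    exact ⟨⟨hz.1, hz.2.1⟩, hz.2.2⟩
  have h2 : R.map Phi (B2 κ) = 0 := by
    rw [hm] at h1 ⊢
    rw [Measure.compProd_apply measurableSet_N3, lintegral_eq_zero_iff
      (Kernel.measurable_kernel_prodMk_left measurableSet_N3)] at h1
    rw [Measure.compProd_apply (measurableSet_B2 κ), lintegral_eq_zero_iff
      (Kernel.measurable_kernel_prodMk_left (measurableSet_B2 κ))]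
    filter_upwards [h1] with b hb
    have hb1 : ((κ ×ₖ (κ ×ₖ κ)) b) (Prod.mk b ⁻¹' N3) = 0 := hb
    change ((κ ×ₖ (κ ×ₖ κ)) b) (Prod.mk b ⁻¹' (B2 κ)) = 0
    have mN := measurableSet_N3.preimage (measurable_prodMk_left (x := b))
    have mB := (measurableSet_B2 κ).preimage (measurable_prodMk_left (x := b))
    rw [Kernel.prod_apply, Measure.measure_prod_null mN] at hb1
    rw [Kernel.prod_apply, Measure.measure_prod_null mB]
    filter_upwards [hb1] with x hx
    have hx1 : ((κ ×ₖ κ) b) (Prod.mk x ⁻¹' (Prod.mk b ⁻¹' N3)) = 0 := hx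
    change ((κ ×ₖ κ) b) (Prod.mk x ⁻¹' (Prod.mk b ⁻¹' (B2 κ))) = 0
    have mN' := mN.preimage (measurable_prodMk_left (x := x))
    have mB' := mB.preimage (measurable_prodMk_left (x := x))
    rw [Kernel.prod_apply, Measure.measure_prod_null mN'] at hx1
    rw [Kernel.prod_apply, Measure.measure_prod_null mB']
    filter_upwards [hx1] with y hy
    have hy1 : (κ b) (Prod.mk y ⁻¹' (Prod.mk x ⁻¹' (Prod.mk b ⁻¹' N3))) = 0 := hy
    change (κ b) (Prod.mk y ⁻¹' (Prod.mk x ⁻¹' (Prod.mk b ⁻¹' (B2 κ)))) = 0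
    by_cases hxy : (x ∅).1 ≠ (y ∅).1
    · have h4 : (Prod.mk y ⁻¹' (Prod.mk x ⁻¹' (Prod.mk b ⁻¹' N3))) =
          {r : Rs | (x ∅).1 ≠ (r ∅).1 ∧ (y ∅).1 ≠ (r ∅).1} := by
        ext r
        exact ⟨fun h => h.2, fun h => ⟨hxy, h⟩⟩
      rw [h4] at hy1
      have h5 : (Prod.mk y ⁻¹' (Prod.mk x ⁻¹' (Prod.mk b ⁻¹' (B2 κ)))) = (∅ : Set Rs) := by
        ext r
        refine ⟨fun h => ?_, fun h => h.elim⟩
        exact h.2 hy1
      rw [h5, measure_empty]
    · have h5 : (Prod.mk y ⁻¹' (Prod.mk x ⁻¹' (Prod.mk b ⁻¹' (B2 κ)))) = (∅ : Set Rs) := by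
        ext r
        refine ⟨fun h => ?_, fun h => h.elim⟩
        exact hxy h.1
      rw [h5, measure_empty]
  rw [Measure.map_apply measurable_Phi (measurableSet_B2 κ)] at h2
  have h6 : ∀ᵐ z ∂(R), z ∉ Phi ⁻¹' (B2 κ) := measure_eq_zero_iff_ae_notMem.1 h2
  filter_upwards [h6] with z hz hd
  by_contra hne
  exact hz ⟨hd, hne⟩

/-! ### the shifted toggled volumes -/

theorem bE0_shO (u : Vx) (D : Finset Ed) (z : Om) :
    bE0 (shO u (aO (tg g0 D) z)).1 = shB u (tB (bdy D) (bE0 z.1)) := by
  have h : (tg g0 D).1 = bdy D := by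
    simp [tg]
  unfold bE0 shO aO aE Pool.Agent.Helper61.MM.shE shB tB
  rw [h]
  simp [tg, sh]
  rfl

theorem bE0_shO' (u : Vx) (z : Om) : bE0 (shO u z).1 = shB u (bE0 z.1) := rfl

theorem rs_shO (u : Vx) (z : Om) (i : Fin 3) : (rs (rp (shO u z) i) ∅).1 = sh u (uu (rp z i) g0) := by
  fin_cases i <;> simp [rs, rp, shO, shV, shSt, uu, trV, trE]

theorem rs_shO_aO (u : Vx) (D : Finset Ed) (z : Om) (i : Fin 3) :
    (rs (rp (shO u (aO (tg g0 D) z)) i) ∅).1 = sh u (uu (rp z i) (tg g0 D)) := by
  have h : gad (tg g0 D) g0 = tg g0 D := by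
    refine Prod.ext ?_ ?_
    · exact symmDiff_bot _
    · exact symmDiff_bot _
  rw [rs_shO]
  have h2 : uu (rp (aO (tg g0 D) z) i) g0 = uu (rp z i) (tg g0 D) := by
    fin_cases i <;> simp [rp, aO, aV, uu, h]
  rw [h2]

theorem sh_neg {α : Type*} (u : Vx) (x : Ed → α) : sh (-u) (sh u x) = x := by
  funext e
  simp [sh]

theorem shT_neg (u : Vx) (x : Vx → Bool) : shT (-u) (shT u x) = x := by
  funext e
  simp [shT]

theorem shB_neg (u : Vx) (b : WT) : shB (-u) (shB u b) = b := by
  unfold shB
  rw [sh_neg, shT_neg]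

theorem tB_tB (S : Finset Vx) (b : WT) : tB S (tB S b) = b := by
  unfold tB vx
  refine Prod.ext rfl ?_
  funext v
  simp

theorem sh_inj {α : Type*} (u : Vx) {x y : Ed → α} (h : sh u x = sh u y) : x = y := by
  have h1 := congrArg (sh (-u)) h
  rwa [sh_neg, sh_neg] at h1

/-- the probability of a pattern which should not appear -/
theorem pat_le (hl : Wgt lam) (hR : IsR lam κ R) (D F A : Finset Ed) (u : Vx) (i : Fin 3) :
    R {z | sh u (uu (rp z i) (tg g0 D)) ∈ EA F A ∧ κ (shB u (bE0 z.1)) (RA F A) = 0} ≤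
      ENNReal.ofReal (∫ b, |(κ (shB u (tB (bdy D) b)) (RA F A)).toReal -
        (κ (shB u b) (RA F A)).toReal| ∂(PB lam)) := by
  have := hl.prob
  have := prob_PB hl
  have := hR.mark
  have := hR.prob
  have mA := measurableSet_RA F A
  have mk : Measurable fun b : WT => κ b (RA F A) := Kernel.measurable_coe κ mA
  have hmp : MeasurePreserving (fun z => shO u (aO (tg g0 D) z)) R R :=
    (hR.shift u).comp (hR.act (tg g0 D))
  have hG : MeasurableSet {x : WT × Rs |
      x.2 ∈ RA F A ∧ κ (shB u (tB (bdy D) (shB (-u) x.1))) (RA F A) = 0} := by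
    refine (mA.preimage measurable_snd).inter ?_
    have h1 : Measurable fun x : WT × Rs => κ (shB u (tB (bdy D) (shB (-u) x.1))) (RA F A) :=
      mk.comp ((measurable_shB u).comp ((measurable_tB (bdy D)).comp
        ((measurable_shB (-u)).comp measurable_fst)))
    exact h1 (measurableSet_singleton 0)
  have h1 : R {z | sh u (uu (rp z i) (tg g0 D)) ∈ EA F A ∧
      κ (shB u (bE0 z.1)) (RA F A) = 0} =
      R {z | (bE0 z.1, rs (rp z i)) ∈ {x : WT × Rs |
        x.2 ∈ RA F A ∧ κ (shB u (tB (bdy D) (shB (-u) x.1))) (RA F A) = 0}} := by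
    have h2 : MeasurableSet {z : Om | (bE0 z.1, rs (rp z i)) ∈ {x : WT × Rs |
        x.2 ∈ RA F A ∧ κ (shB u (tB (bdy D) (shB (-u) x.1))) (RA F A) = 0}} := by
      refine hG.preimage ((measurable_bE0.comp measurable_fst).prodMk (measurable_rs.comp ?_))
      fin_cases i
      · exact measurable_fst.comp measurable_snd
      · exact measurable_fst.comp (measurable_snd.comp measurable_snd)
      · exact measurable_snd.comp (measurable_snd.comp measurable_snd)
    rw [← hmp.measure_preimage h2.nullMeasurableSet]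
    refine congrArg R (Set.ext fun z => ?_)
    have e1 := rs_shO_aO u D z i
    have e2 : shB u (tB (bdy D) (shB (-u) (bE0 (shO u (aO (tg g0 D) z)).1))) =
        shB u (bE0 z.1) := by
      rw [bE0_shO, shB_neg, tB_tB]
    refine Iff.intro (fun h => ⟨?_, ?_⟩) (fun h => ⟨?_, ?_⟩)
    · change (rs (rp (shO u (aO (tg g0 D) z)) i) ∅).1 ∈ EA F A
      rw [e1]
      exact h.1
    · change κ (shB u (tB (bdy D) (shB (-u) (bE0 (shO u (aO (tg g0 D) z)).1)))) (RA F A) = 0
      rw [e2]
      exact h.2
    · rw [← e1]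
      exact h.1
    · rw [← e2]
      exact h.2
  rw [h1, law_one hl hR i hG]
  change ∫⁻ b, κ b (Prod.mk b ⁻¹' {x : WT × Rs |
    x.2 ∈ RA F A ∧ κ (shB u (tB (bdy D) (shB (-u) x.1))) (RA F A) = 0}) ∂(PB lam) ≤ _
  have hmb : MeasurePreserving (fun b => shB u (tB (bdy D) b)) (PB lam) (PB lam) :=
    (mp_shB hl u).comp (mp_tB hl (bdy D))
  rw [← hmb.lintegral_comp (Kernel.measurable_kernel_prodMk_left hG)]
  have hmm : Measurable fun b : WT => |(κ (shB u (tB (bdy D) b)) (RA F A)).toReal -
        (κ (shB u b) (RA F A)).toReal| := by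
    have h3 : Measurable fun b : WT => (κ (shB u (tB (bdy D) b)) (RA F A)).toReal :=
      (mk.comp hmb.measurable).ennreal_toReal
    have h4 : Measurable fun b : WT => (κ (shB u b) (RA F A)).toReal :=
      (mk.comp (measurable_shB u)).ennreal_toReal
    exact (h3.sub h4).abs
  rw [ofReal_integral_eq_lintegral_ofReal]
  · refine lintegral_mono fun b => ?_
    by_cases hb : κ (shB u b) (RA F A) = 0
    · have h5 : Prod.mk (shB u (tB (bdy D) b)) ⁻¹' {x : WT × Rs |
          x.2 ∈ RA F A ∧ κ (shB u (tB (bdy D) (shB (-u) x.1))) (RA F A) = 0} ⊆ RA F A :=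
        fun r hr => hr.1
      refine (measure_mono h5).trans ?_
      rw [hb, ENNReal.toReal_zero, sub_zero, abs_of_nonneg ENNReal.toReal_nonneg,
        ENNReal.ofReal_toReal (measure_ne_top _ _)]
    · have h5 : Prod.mk (shB u (tB (bdy D) b)) ⁻¹' {x : WT × Rs |
          x.2 ∈ RA F A ∧ κ (shB u (tB (bdy D) (shB (-u) x.1))) (RA F A) = 0} = ∅ := by
        ext r
        refine ⟨fun h => ?_, fun h => h.elim⟩
        have h6 : κ (shB u (tB (bdy D) (shB (-u) (shB u (tB (bdy D) b))))) (RA F A) = 0 := h.2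
        rw [shB_neg, tB_tB] at h6
        exact hb h6
      rw [h5, measure_empty]
      exact zero_le
  · refine Integrable.of_bound hmm.aestronglyMeasurable 1 (Eventually.of_forall fun b => ?_)
    rw [Real.norm_eq_abs, abs_abs]
    have h3 : ∀ b, 0 ≤ (κ b (RA F A)).toReal ∧ (κ b (RA F A)).toReal ≤ 1 := fun b =>
      ⟨ENNReal.toReal_nonneg, by
        have := ENNReal.toReal_mono ENNReal.one_ne_top (prob_le_one (μ := κ b) (s := RA F A))
        simpa using this⟩
    rw [abs_le]
    constructor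
    · linarith [(h3 (shB u (tB (bdy D) b))).1, (h3 (shB u b)).2]
    · linarith [(h3 (shB u (tB (bdy D) b))).2, (h3 (shB u b)).1]
  · exact Eventually.of_forall fun b => abs_nonneg _

theorem far_pat (hl : Wgt lam) (hR : IsR lam κ R)
    (h3 : R (Df 0 1 g0 ∩ Df 0 2 g0 ∩ Df 1 2 g0) = 0) (D : Finset Ed) (F : Finset Ed) {ε : ℝ}
    (hε : 0 < ε) : ∀ᶠ u : Vx in cofinite, ∀ i : Fin 3, (i = 0 ∨ i = 1) →
      R {z | z ∈ Df 0 1 g0 ∧
        ¬ ((∀ e ∈ trE u F, (uu (rp z i) (tg g0 D)) e = (uu (rp z 0) g0) e) ∨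
          (∀ e ∈ trE u F, (uu (rp z i) (tg g0 D)) e = (uu (rp z 1) g0) e))} ≤
            ENNReal.ofReal ε := by
  have := hl.prob
  have := prob_PB hl
  have := hR.mark
  have := hR.prob
  have hfar : ∀ A ∈ F.powerset, ∀ᶠ u : Vx in cofinite,
      ∫ b, |(κ (shB u (tB (bdy D) b)) (RA F A)).toReal -
        (κ (shB u b) (RA F A)).toReal| ∂(PB lam) < ε / (F.powerset.card : ℝ) := by
    intro A _
    have mk : Measurable fun b : WT => (κ b (RA F A)).toReal :=
      (Kernel.measurable_coe κ (measurableSet_RA F A)).ennreal_toReal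
    have h1 := far_toggle hl mk ⟨1, fun b => by
      rw [abs_of_nonneg ENNReal.toReal_nonneg]
      have := ENNReal.toReal_mono ENNReal.one_ne_top (prob_le_one (μ := κ b) (s := RA F A))
      simpa using this⟩ (bdy D)
    have h2 : (0 : ℝ) < ε / (F.powerset.card : ℝ) := by
      refine div_pos hε ?_
      rw [Finset.card_powerset]
      positivity
    exact h1.eventually (gt_mem_nhds h2)
  rw [← Filter.eventually_all_finset] at hfar
  filter_upwards [hfar] with u hu i _
  have hae := ae_two hl hR h3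
  have hae' := (hR.shift u).quasiMeasurePreserving.ae hae
  have hN : R {z | ¬ (shO u z ∈ Df 0 1 g0 → κ (bE0 (shO u z).1) {r |
      uu (rp (shO u z) 0) g0 ≠ (r ∅).1 ∧ uu (rp (shO u z) 1) g0 ≠ (r ∅).1} = 0)} = 0 := hae'
  have hsub : {z | z ∈ Df 0 1 g0 ∧
        ¬ ((∀ e ∈ trE u F, (uu (rp z i) (tg g0 D)) e = (uu (rp z 0) g0) e) ∨
          (∀ e ∈ trE u F, (uu (rp z i) (tg g0 D)) e = (uu (rp z 1) g0) e))} ⊆
      {z | ¬ (shO u z ∈ Df 0 1 g0 → κ (bE0 (shO u z).1) {r |
        uu (rp (shO u z) 0) g0 ≠ (r ∅).1 ∧ uu (rp (shO u z) 1) g0 ≠ (r ∅).1} = 0)} ∪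
      ⋃ A ∈ F.powerset, {z | sh u (uu (rp z i) (tg g0 D)) ∈ EA F A ∧
        κ (shB u (bE0 z.1)) (RA F A) = 0} := by
    rintro z ⟨hz, hno⟩
    by_cases hbad : shO u z ∈ Df 0 1 g0 → κ (bE0 (shO u z).1) {r |
        uu (rp (shO u z) 0) g0 ≠ (r ∅).1 ∧ uu (rp (shO u z) 1) g0 ≠ (r ∅).1} = 0
    · right
      have e0 : ∀ j, uu (rp (shO u z) j) g0 = sh u (uu (rp z j) g0) := fun j => rs_shO u z j
      have hd : shO u z ∈ Df 0 1 g0 := by
        intro h
        rw [e0, e0] at h
        exact hz (sh_inj u h)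
      have h1 := hbad hd
      rw [bE0_shO', e0, e0] at h1
      refine Set.mem_iUnion₂.2 ⟨F.filter fun e => sh u (uu (rp z i) (tg g0 D)) e = true,
        Finset.mem_powerset.2 (Finset.filter_subset _ _), ?_, ?_⟩
      · intro e he
        by_cases h2 : sh u (uu (rp z i) (tg g0 D)) e = true
        · rw [h2]
          exact (decide_eq_true (Finset.mem_filter.2 ⟨he, h2⟩)).symm
        · rw [Bool.not_eq_true] at h2
          rw [h2]
          refine (decide_eq_false fun h => ?_).symm
          have := (Finset.mem_filter.1 h).2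
          rw [h2] at this
          exact Bool.false_ne_true this
      · refine measure_mono_null ?_ h1
        intro r hr
        -- the pattern of `r` is the pattern of the toggled state
        have h2 : ∀ e ∈ F, (r ∅).1 e = sh u (uu (rp z i) (tg g0 D)) e := by
          intro e he
          have h3 : (r ∅).1 e = decide (e ∈ F.filter fun e =>
            sh u (uu (rp z i) (tg g0 D)) e = true) := hr e he
          rw [h3]
          by_cases h2 : sh u (uu (rp z i) (tg g0 D)) e = true
          · rw [h2]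
            exact decide_eq_true (Finset.mem_filter.2 ⟨he, h2⟩)
          · rw [Bool.not_eq_true] at h2
            rw [h2]
            refine decide_eq_false fun h => ?_
            have := (Finset.mem_filter.1 h).2
            rw [h2] at this
            exact Bool.false_ne_true this
        refine ⟨fun h => hno (Or.inl ?_), fun h => hno (Or.inr ?_)⟩
        · intro e' he'
          obtain ⟨e, he, rfl⟩ := Finset.mem_image.1 he'
          have := h2 e he
          rw [← h] at this
          exact this.symm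
        · intro e' he'
          obtain ⟨e, he, rfl⟩ := Finset.mem_image.1 he'
          have := h2 e he
          rw [← h] at this
          exact this.symm
    · left
      exact hbad
  refine (measure_mono hsub).trans ((measure_union_le _ _).trans ?_)
  rw [hN, zero_add]
  refine (measure_biUnion_finset_le _ _).trans ?_
  refine (Finset.sum_le_sum fun A hA => (pat_le hl hR D F A u i).trans
    (ENNReal.ofReal_le_ofReal (hu A hA).le)).trans ?_
  rw [Finset.sum_const, nsmul_eq_mul, ← ENNReal.ofReal_natCast, ← ENNReal.ofReal_mul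
    (Nat.cast_nonneg _)]
  refine ENNReal.ofReal_le_ofReal (le_of_eq ?_)
  have : (F.powerset.card : ℝ) ≠ 0 := by
    rw [Finset.card_powerset]
    positivity
  field_simp

end Pool.Agent.Helper98.MM
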